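import Pool.Agent.H9.ASC.Reg

/-!
# Mahlo cardinals of higher order

`Mahlo β χ`: `χ` is inaccessible, and for every `γ < β` the set of the cardinals `χ'` with
`Mahlo γ χ'` is stationary in `χ`.  (`Mahlo 0` is inaccessible, `Mahlo 1` is Mahlo.)
-/

open Cardinal Ordinal Filter Set Order

universe u

namespace Pool.Agent.H9.ASC

open Pool.Agent.H85.ASC

/-- `χ` is `β`-Mahlo -/
def Mahlo (β : Ordinal.{u}) (χ : Cardinal.{u}) : Prop :=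
  χ.IsInaccessible ∧
    ∀ γ : Ordinal.{u}, γ < β → Stat {α | ∃ χ' : Cardinal.{u}, χ'.ord = α ∧ Mahlo γ χ'} χ.ord
termination_by β

theorem mahlo_iff (β : Ordinal.{u}) (χ : Cardinal.{u}) : Mahlo β χ ↔ χ.IsInaccessible ∧
    ∀ γ : Ordinal.{u}, γ < β → Stat {α | ∃ χ' : Cardinal.{u}, χ'.ord = α ∧ Mahlo γ χ'} χ.ord := by
  rw [Mahlo]

variable {κ : Cardinal.{u}}

theorem mahlo_stat (h₁ : AlmostSC κ)
    (h₂ : IsLeast {μ : Cardinal.{u} | ℵ₁ ≤ μ ∧ SC ℵ₁ μ} κ)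
    {C : Set Cardinal.{u}} (hC : ClubBelow C κ) (hinf : ∀ χ ∈ C, ℵ₀ < χ)
    (hsl : ∀ χ ∈ C, ∀ μ < χ, 2 ^ μ < χ) (β : Ordinal.{u}) :
    ∀ δ : Cardinal.{u}, ℵ₁ ≤ δ → δ < κ → β.card < δ →
      Stat {α | ∃ χ : Cardinal.{u}, χ.ord = α ∧ Mahlo β χ ∧ ¬ Uni δ χ} κ.ord := by
  induction β using WellFoundedLT.induction with
  | ind β ih =>
    intro δ hδ hδκ hβ
    let ι := β.ToType
    let T : ι → Set Ordinal.{u} := fun i =>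
      {α | ∃ χ : Cardinal.{u}, χ.ord = α ∧ Mahlo (ToType.toOrd i : Ordinal.{u}) χ ∧ ¬ Uni δ χ}
    have hι : #ι < δ := by
      rw [mk_toType]
      exact hβ
    have hi : ∀ i : ι, (ToType.toOrd i : Ordinal.{u}) < β := fun i => (ToType.toOrd i).2
    have hT : ∀ i, Stat (T i) κ.ord := fun i =>
      ih _ (hi i) δ hδ hδκ ((Ordinal.card_le_card (hi i).le).trans_lt hβ)
    have hTc : ∀ i, ∀ α ∈ T i, ¬ Uni δ α.cof := by
      rintro i α ⟨χ, rfl, h3, h4⟩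
      have h5 : χ.IsRegular := (((mahlo_iff _ _).1 h3).1).isRegular
      rw [h5.cof_ord]
      exact h4
    refine (reflection h₁ h₂ hδ hδκ hC hinf hι T hT hTc).mono ?_
    rintro α ⟨χ, h3, h4, h5, h6, h7⟩
    refine ⟨χ, h4, ?_, h6⟩
    rw [mahlo_iff]
    refine ⟨⟨hinf χ h3, h5.2, fun μ hμ => hsl χ h3 μ hμ⟩, fun γ hγ => ?_⟩
    have h8 := h7 (ToType.mk ⟨γ, hγ⟩)
    rw [← h4] at h8
    refine h8.mono ?_
    rintro α' ⟨χ', h9, h10, -⟩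
    refine ⟨χ', h9, ?_⟩
    have h11 : (ToType.toOrd (ToType.mk (⟨γ, hγ⟩ : Iio β)) : Ordinal.{u}) = γ := by
      show ((ToType.mk.symm (ToType.mk (⟨γ, hγ⟩ : Iio β)) : Iio β) : Ordinal.{u}) = γ
      rw [OrderIso.symm_apply_apply]
    rw [h11] at h10
    exact h10

/-- `κ` is `β`-Mahlo for all `β < κ` -/
theorem mahlo_of_hyp (h₁ : AlmostSC κ)
    (h₂ : IsLeast {μ : Cardinal.{u} | ℵ₁ ≤ μ ∧ SC ℵ₁ μ} κ) (hin : κ.IsInaccessible)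
    {C : Set Cardinal.{u}} (hC : ClubBelow C κ) (hinf : ∀ χ ∈ C, ℵ₀ < χ)
    (hsl : ∀ χ ∈ C, ∀ μ < χ, 2 ^ μ < χ) : ∀ β ≤ κ.ord, Mahlo β κ := by
  intro β hβ
  rw [mahlo_iff]
  refine ⟨hin, fun γ hγ => ?_⟩
  have hγκ : γ.card < κ := lt_ord.1 (hγ.trans_le hβ)
  have hδκ : succ (max γ.card ℵ₁) < κ := succ_lt_of_hyp h₁ h₂ (max_lt hγκ h₁.1)
  refine (mahlo_stat h₁ h₂ hC hinf hsl γ (succ (max γ.card ℵ₁))
    ((le_max_right _ _).trans (le_succ _)) hδκ ((le_max_left _ _).trans_lt (lt_succ _))).mono ?_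
  rintro α ⟨χ, h3, h4, -⟩
  exact ⟨χ, h3, h4⟩

end Pool.Agent.H9.ASC
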