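import Pool.Agent.H85.ASC.Final

/-!
# The lower bound for `2 ^ χ`, for points with a hole at a higher completeness

As in `Pool.Agent.H85.ASC.Power`, with `¬ Uni δ χ` (no `δ`-complete uniform ultrafilter, some
`δ < χ`) in the place of `¬ Uni ℵ₁ χ`.
-/

open Cardinal Ordinal Filter Set Order

universe u

namespace Pool.Agent.H9.ASC

open Pool.Agent.H85.ASC

variable {I J : Type u} {W : Ultrafilter I} {δ ν κ β χ : Cardinal.{u}}

/-- no decomposability in `[χ, χ^{+δ})` -/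
theorem not_dec_aleph (hδ : ℵ₁ ≤ δ) (hW : Cp W δ) {o : Ordinal.{u}}
    (hχc : (ℵ_ o).ord.cof < δ ∨ ((ℵ_ o).IsRegular ∧ ¬ Uni δ (ℵ_ o)))
    (hB : ∀ ρ < ℵ_ o, ∃ l, ρ < l ∧ l < ℵ_ o ∧ l.IsRegular ∧ ¬ Uni ℵ₁ l)
    (ξ : Ordinal.{u}) (hξ : ξ < δ.ord) : ¬ Dec W (ℵ_ (o + ξ)) := by
  induction ξ using WellFoundedLT.induction with
  | ind ξ ih =>
    rcases Ordinal.zero_or_succ_or_isSuccLimit ξ with rfl | ⟨ζ, rfl⟩ | hlim
    · rw [add_zero]
      rcases hχc with hc | ⟨hr, hu⟩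
      · exact not_dec_of_cof (aleph0_le_aleph o) hc hW
      · exact fun h => hu (uni_of_dec h (aleph0_le_aleph o) hW)
    · intro hdec
      have hζ : ζ < succ ζ := lt_succ ζ
      have hζδ : ζ < δ.ord := hζ.trans hξ
      have hs : ℵ_ (o + succ ζ) = succ (ℵ_ (o + ζ)) := by
        rw [Order.succ_eq_add_one, ← add_assoc, succ_aleph]
      rw [hs] at hdec
      rcases isRegular_or_isSingular (aleph0_le_aleph (o + ζ)) with hr | hsing
      · exact ih ζ hζ hζδ (kunen_prikry_regular hr hdec)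
      · have hlimo := hsing.isSuccLimit_of_aleph
        rcases Ordinal.zero_or_succ_or_isSuccLimit ζ with rfl | ⟨ζ', rfl⟩ | hlim
        · -- `χ` itself is singular
          rw [add_zero] at hdec hsing
          have hc : (ℵ_ o).ord.cof < δ := by
            rcases hχc with hc | ⟨hr, _⟩
            · exact hc
            · exact absurd hr hsing.not_isRegular
          obtain ⟨b, hb⟩ := kunen_prikry (aleph0_le_aleph o) hdec (bdd_of_cof hc hW)
          obtain ⟨l, hl1, hl2, hl3, hl4⟩ := hB #(Iic b) (mk_Iic_lt (aleph0_le_aleph o) b)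
          exact hl4 ((uni_of_dec (hb l hl3 hl1 hl2.le) hl3.1 hW).mono hδ)
        · exact hsing.not_isRegular (by
            rw [Order.succ_eq_add_one, ← add_assoc]; exact isRegular_aleph_add_one _)
        · have hζ0 : ζ ≠ 0 := hlim.ne_bot
          have hc : (ℵ_ (o + ζ)).ord.cof < δ := by
            rw [ord_aleph, cof_omega hlimo, cof_add o hζ0]
            exact (cof_le_card ζ).trans_lt (lt_ord.1 hζδ)
          obtain ⟨b, hb⟩ := kunen_prikry (aleph0_le_aleph _) hdec (bdd_of_cof hc hW)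
          have hbc := mk_Iic_lt (aleph0_le_aleph (o + ζ)) b
          -- a smaller aleph
          have h1 : ∃ η < ζ, #(Iic b) < ℵ_ (o + η) := by
            by_contra hcon
            push Not at hcon
            have h2 : ℵ_ (o + ζ) ≤ #(Iic b) := by
              refine (aleph_limit hlimo).le.trans ?_
              refine ciSup_le' fun a => ?_
              have h3 : (a : Ordinal) ≤ o + (a.1 - o) := Ordinal.le_add_sub _ _
              have h4 : a.1 - o < ζ :=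
                Ordinal.sub_lt_of_lt_add a.2 (pos_iff_ne_zero.2 hζ0)
              exact (aleph_le_aleph.2 h3).trans (hcon _ h4)
            exact absurd hbc (not_lt.2 h2)
          obtain ⟨η, hη, hbη⟩ := h1
          have hη1 : η + 1 < ζ := hlim.succ_lt hη
          refine ih (η + 1) (hη1.trans hζ) (hη1.trans hζδ) (hb _ ?_ ?_ ?_)
          · rw [← add_assoc]
            exact isRegular_aleph_add_one _
          · exact hbη.trans (aleph_lt_aleph.2 (by gcongr; exact lt_add_one η))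
          · exact aleph_le_aleph.2 (by gcongr)
    · have hlimo : IsSuccLimit (o + ξ) := Ordinal.isSuccLimit_add o hlim
      refine not_dec_of_cof (aleph0_le_aleph _) ?_ hW
      rw [ord_aleph, cof_omega hlimo, cof_add o hlim.ne_bot]
      exact (cof_le_card ξ).trans_lt (lt_ord.1 hξ)

/-- the lower bound for `2 ^ χ` -/
theorem power_ge (hδ : ℵ₁ ≤ δ) (hW : Cp W δ) {o : Ordinal.{u}}
    (hχc : (ℵ_ o).ord.cof < δ ∨ ((ℵ_ o).IsRegular ∧ ¬ Uni δ (ℵ_ o)))
    (hB : ∀ ρ < ℵ_ o, ∃ l, ρ < l ∧ l < ℵ_ o ∧ l.IsRegular ∧ ¬ Uni ℵ₁ l)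
    (hD : ∀ ρ < ℵ_ o, ∃ ν, ρ < ν ∧ ν < ℵ_ o ∧ Dec W ν) :
    ℵ_ (o + δ.ord) ≤ 2 ^ (ℵ_ o) := by
  by_contra hlt
  rw [not_le] at hlt
  have hno : ∀ ν, ℵ_ o ≤ ν → ν ≤ 2 ^ (ℵ_ o) → ¬ Dec W ν := by
    intro ν h1 h2
    obtain ⟨o', rfl⟩ := mem_range_aleph_iff.2 ((aleph0_le_aleph o).trans h1)
    have h3 : o ≤ o' := aleph_le_aleph.1 h1
    have h4 : o' < o + δ.ord := aleph_lt_aleph.1 (h2.trans_lt hlt)
    have h5 : o + (o' - o) = o' := Ordinal.add_sub_cancel_of_le h3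
    have h6 : o' - o < δ.ord := (Ordinal.sub_lt_of_le h3).2 h4
    rw [← h5]
    exact not_dec_aleph hδ hW hχc hB _ h6
  obtain ⟨J, g, hJ, hg⟩ := silver (aleph0_le_aleph o) hno
  obtain ⟨ν, h1, h2, K, f, hK, hf⟩ := hD _ hJ
  obtain ⟨q, hq⟩ := hg K f (hK.trans_le h2.le)
  apply hf (range q) (mk_range_le.trans_lt h1)
  filter_upwards [hq] with x hx
  exact ⟨g x, hx.symm⟩

/-- on the club, `2 ^ χ > χ^{+χ}` for singular `χ` and for regular `χ` without `δ`-complete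
uniform ultrafilter, for some `δ < χ` -/
theorem power_of_club {χ : Cardinal.{u}} (h0 : ℵ₁ < χ) (hsl : ∀ μ < χ, 2 ^ μ < χ)
    (hB : ∀ ρ < χ, ∃ l, ρ < l ∧ l < χ ∧ l.IsRegular ∧ ¬ Uni ℵ₁ l)
    (hD : ∀ δ, ℵ₁ ≤ δ → δ < χ → ∃ W : Ultrafilter κ.ord.ToType, Cp W δ ∧
        ∀ ρ < χ, ∃ ν, ρ < ν ∧ ν < χ ∧ Dec W ν)
    (hχ : χ.IsSingular ∨ ∃ δ < χ, ¬ Uni δ χ) {o : Ordinal.{u}} (ho : ℵ_ o = χ) :
    ℵ_ (o + χ.ord) < 2 ^ χ := by
  subst ho
  have hsucc : ∀ μ < ℵ_ o, succ μ < ℵ_ o := fun μ hμ =>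
    (succ_le_of_lt (cantor μ)).trans_lt (hsl μ hμ)
  refine power_gt hsucc fun δ hδ => ?_
  rcases isRegular_or_isSingular (aleph0_le_aleph o) with hr | hs
  · obtain ⟨δ', hδ', hu⟩ : ∃ δ' < ℵ_ o, ¬ Uni δ' (ℵ_ o) := by
      rcases hχ with h | h
      · exact absurd h hr.not_isSingular
      · exact h
    have h1 : max (max δ δ') ℵ₁ < ℵ_ o := max_lt (max_lt hδ hδ') h0
    obtain ⟨W, hW, hWD⟩ := hD (max (max δ δ') ℵ₁) (le_max_right _ _) h1
    exact ⟨max (max δ δ') ℵ₁, (le_max_left _ _).trans (le_max_left _ _), h1,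
      power_ge (le_max_right _ _) hW
        (Or.inr ⟨hr, fun h => hu (h.mono ((le_max_right _ _).trans (le_max_left _ _)))⟩) hB hWD⟩
  · have h1 : succ (max (max δ ℵ₁) (ℵ_ o).ord.cof) < ℵ_ o :=
      hsucc _ (max_lt (max_lt hδ h0) hs.cof_ord_lt)
    have h2 : ℵ₁ ≤ succ (max (max δ ℵ₁) (ℵ_ o).ord.cof) :=
      ((le_max_right _ _).trans (le_max_left _ _)).trans (le_succ _)
    have h3 : (ℵ_ o).ord.cof < succ (max (max δ ℵ₁) (ℵ_ o).ord.cof) :=
      (le_max_right _ _).trans_lt (lt_succ _)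
    obtain ⟨W, hW, hWD⟩ := hD _ h2 h1
    exact ⟨_, ((le_max_left _ _).trans (le_max_left _ _)).trans (le_succ _), h1,
      power_ge h2 hW (Or.inl h3) hB hWD⟩

end Pool.Agent.H9.ASC
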