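import Pool.Agent.H9.ASC.Stat

/-!
# Almost every point is a regular cardinal without `δ`-complete uniform ultrafilter

For every `δ < κ` the Ketonen minimal `δ`-complete ultrafilter on `κ` concentrates on regular
cardinals of the club which carry no `δ`-complete uniform ultrafilter; the stationary sets of points
whose cofinalities carry no such ultrafilter reflect there, fewer than `δ` at a time.
-/

open Cardinal Ordinal Filter Set Order

universe u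

namespace Pool.Agent.H9.ASC

open Pool.Agent.H85.ASC

variable {κ δ : Cardinal.{u}}

theorem ae_regular (h₁ : AlmostSC κ)
    (h₂ : IsLeast {μ : Cardinal.{u} | ℵ₁ ≤ μ ∧ SC ℵ₁ μ} κ) (hδ : ℵ₁ ≤ δ)
    {C : Set Cardinal.{u}} (hC : ClubBelow C κ) (hinf : ∀ χ ∈ C, ℵ₀ < χ)
    {D : Ultrafilter κ.ord.ToType} (hDc : Cp D δ) (hD' : ∀ a, Ioi a ∈ D)
    (hwn : ∀ t : κ.ord.ToType → κ.ord.ToType, (∀ᶠ α in (D : Filter κ.ord.ToType), t α < α) →
        ∃ γ, ∀ᶠ α in (D : Filter κ.ord.ToType), t α ≤ γ)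
    (hcof : ∀ᶠ α in (D : Filter κ.ord.ToType),
      ¬ (ℵ₀ ≤ Order.cof (Iio α) ∧ Uni δ (Order.cof (Iio α)))) :
    ∀ᶠ α in (D : Filter κ.ord.ToType), ∃ χ ∈ C, χ.ord = pt α ∧ χ.IsRegular ∧ ¬ Uni δ χ := by
  classical
  have hr := regular_of_hyp h₁ h₂
  have hE := club_mem hr hC D hD' hwn
  by_contra hcon0
  have hcon := Ultrafilter.eventually_not.2 hcon0
  -- almost all points have small cofinality
  have hsmall : ∀ᶠ α in (D : Filter κ.ord.ToType),
      (Order.cof (Iio α)).ord < (ToType.toOrd α : Ordinal.{u}) := by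
    filter_upwards [hE, hcon, hcof] with α h3 h4 h5
    obtain ⟨χ, hχ, hχα⟩ := h3
    have h7 : Order.cof (Iio α) = χ.ord.cof := by
      rw [Order.cof_Iio]
      rw [hχα]
      rfl
    rw [h7, ← hχα, ord_lt_ord]
    by_contra h8
    have h9 : χ.IsRegular := ⟨(hinf χ hχ).le, not_lt.1 h8⟩
    refine h4 ⟨χ, hχ, hχα, h9, fun hu => h5 ⟨?_, ?_⟩⟩
    · rw [h7, h9.cof_ord]
      exact (hinf χ hχ).le
    · rw [h7, h9.cof_ord]
      exact hu
  -- hence bounded cofinality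
  have hcκ : ∀ α : κ.ord.ToType, (Order.cof (Iio α)).ord < κ.ord := fun α => by
    refine ord_lt_ord.2 ((Order.cof_le_cardinalMk _).trans_lt (mk_Iio_toType_ord_lt α))
  obtain ⟨γ, hγ⟩ := hwn (fun α => ToType.mk ⟨(Order.cof (Iio α)).ord, hcκ α⟩) (by
    filter_upwards [hsmall] with α hα
    rw [← ToType.mk.symm.lt_iff_lt, OrderIso.symm_apply_apply, ← Subtype.coe_lt_coe]
    exact hα)
  set κ' : Cardinal.{u} := succ (max (ToType.toOrd γ : Ordinal.{u}).card ℵ₀) with hκ'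
  have hγκ : (ToType.toOrd γ : Ordinal.{u}).card < κ := lt_ord.1 (ToType.toOrd γ).2
  have hκ'κ : κ' < κ := succ_lt_of_hyp h₁ h₂ (max_lt hγκ (aleph0_lt_aleph_one.trans h₁.1))
  have hc : ∀ᶠ α in (D : Filter κ.ord.ToType), Order.cof (Iio α) < κ' := by
    filter_upwards [hγ] with α hα
    rw [← ToType.mk.symm.le_iff_le, OrderIso.symm_apply_apply, ← Subtype.coe_le_coe] at hα
    have h3 : Order.cof (Iio α) ≤ (ToType.toOrd γ : Ordinal.{u}).card := by
      have h4 := Ordinal.card_le_card hα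
      simpa using h4
    exact h3.trans_lt ((le_max_left _ _).trans_lt (lt_succ _))
  obtain ⟨σ, hσ1, hσ2⟩ := cover hr
    (aleph0_pos.trans_le ((le_max_right _ _).trans (le_succ _))) D hD' hwn hc
  obtain ⟨l, hl1, hl2, hl3, hl4⟩ := exists_hole h₁ h₂ hκ'κ
  -- push forward to `l`
  have hlκ : l.ord ≤ κ.ord := ord_le_ord.2 hl2.le
  have hιb : ∀ ξ : l.ord.ToType, (ToType.toOrd ξ : Ordinal.{u}) < κ.ord := fun ξ =>
    lt_of_lt_of_le (mem_Iio.1 (ToType.toOrd ξ).2) hlκ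
  let ι : l.ord.ToType → κ.ord.ToType := fun ξ =>
    ToType.mk ⟨(ToType.toOrd ξ : Ordinal.{u}), hιb ξ⟩
  have hι : Function.Injective ι := by
    intro ξ ξ' h
    have h3 := ToType.mk.injective h
    have h4 : ((ToType.toOrd ξ : Iio l.ord) : Ordinal.{u}) = (ToType.toOrd ξ' : Iio l.ord) :=
      Subtype.mk.inj h3
    exact ToType.mk.symm.injective (Subtype.ext h4)
  have hb : ∀ α, ∃ b : l.ord.ToType, ∀ ξ, ι ξ ∈ σ α → ξ < b := by
    intro α
    obtain ⟨b, hb⟩ := exists_bound (ι ⁻¹' σ α) (by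
      rw [hl3.cof_ord]
      exact ((mk_preimage_of_injective _ _ hι).trans_lt (hσ1 α)).trans hl1)
    exact ⟨b, fun ξ h => hb ξ h⟩
  choose f hf using hb
  refine hl4 ⟨D.map f, (hDc.map f).mono hδ, fun a => ?_⟩
  show f ⁻¹' (Ioi a) ∈ D
  filter_upwards [hσ2 (ι a)] with α hα using hf α a hα

/-- **Simultaneous reflection at inaccessible cardinals without `δ`-complete uniform
ultrafilter.** -/
theorem reflection (h₁ : AlmostSC κ)
    (h₂ : IsLeast {μ : Cardinal.{u} | ℵ₁ ≤ μ ∧ SC ℵ₁ μ} κ) (hδ : ℵ₁ ≤ δ) (hδκ : δ < κ)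
    {C : Set Cardinal.{u}} (hC : ClubBelow C κ) (hinf : ∀ χ ∈ C, ℵ₀ < χ)
    {ι : Type u} (hι : #ι < δ) (T : ι → Set Ordinal.{u}) (hT : ∀ i, Stat (T i) κ.ord)
    (hTc : ∀ i, ∀ α ∈ T i, ¬ Uni δ α.cof) :
    Stat {α | ∃ χ ∈ C, χ.ord = α ∧ χ.IsRegular ∧ ¬ Uni δ χ ∧ ∀ i, Stat (T i) α} κ.ord := by
  have hr := regular_of_hyp h₁ h₂
  have h0 : ℵ₀ < κ := aleph0_lt_aleph_one.trans h₁.1
  obtain ⟨D, ⟨hDc, hD'⟩, hwn, hcof⟩ := ketonen_min (δ := δ) hδ hr.1
    (uni_of_sc (h₁.2 δ hδ hδκ) hr le_rfl)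
  rw [stat_iff]
  intro E hE
  have e1 := ae_regular h₁ h₂ hδ hC hinf hDc hD' hwn hcof
  have e2 := club_mem' hr hD' hwn hE
  have e3 : ∀ᶠ a in (D : Filter κ.ord.ToType), ∀ i, Stat (T i) (pt a) := by
    refine hDc.all hι fun i => ?_
    have h3 : IsStationary {x : κ.ord.ToType | pt x ∈ T i} := (stat_iff _).1 (hT i)
    have h4 := reflect hr h0 hDc hD' hwn h3 fun x hx => by
      rw [cof_pt]
      exact hTc i _ hx
    filter_upwards [h4] with a ha
    exact (stat_pt_iff _ _).2 ha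
  obtain ⟨a, ⟨χ, h3, h4, h5, h6⟩, h7, h8⟩ := (e1.and (e2.and e3)).exists
  exact ⟨a, ⟨χ, h3, h4, h5, h6, h8⟩, h7⟩

end Pool.Agent.H9.ASC
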