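import Pool.Agent.H9.ASC.Mahlo

/-!
# The club of strong limit cardinals below an inaccessible cardinal
-/

open Cardinal Ordinal Filter Set Order

universe u

namespace Pool.Agent.H9.ASC

open Pool.Agent.H85.ASC

variable {κ : Cardinal.{u}}

theorem club_strongLimit (hr : κ.IsRegular) (h0 : ℵ₀ < κ) (hsl : ∀ μ < κ, 2 ^ μ < κ) :
    ClubBelow {χ : Cardinal.{u} | χ < κ ∧ ℵ₀ < χ ∧ ∀ μ < χ, 2 ^ μ < χ} κ := by
  refine ⟨fun χ h => h.1, ?_, ?_⟩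
  · intro μ hμ
    have hs0 : succ ℵ₀ < κ := (succ_le_of_lt (cantor ℵ₀)).trans_lt (hsl _ h0)
    let s : ℕ → Cardinal.{u} := fun n => Nat.rec (max μ (succ ℵ₀)) (fun _ x => 2 ^ x) n
    have hs1 : ∀ n, s (n + 1) = 2 ^ s n := fun n => rfl
    have hsκ : ∀ n, s n < κ := by
      intro n
      induction n with
      | zero => exact max_lt hμ hs0
      | succ n ih => rw [hs1]; exact hsl _ ih
    have hsl' : ∀ n, s n < s (n + 1) := fun n => by rw [hs1]; exact cantor _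
    have hbdd : BddAbove (range s) := bddAbove_range s
    have hle : ∀ n, s n < ⨆ n, s n := fun n => (hsl' n).trans_le (le_ciSup hbdd (n + 1))
    have hlt : ∀ x < ⨆ n, s n, ∃ n, x < s n := fun x hx => (lt_ciSup_iff hbdd).1 hx
    refine ⟨⨆ n, s n, ⟨?_, ?_, ?_⟩, ?_⟩
    · refine iSup_lt_lift_of_isRegular hr ?_ hsκ
      simpa using h0
    · exact (lt_succ ℵ₀).trans_le ((le_max_right μ (succ ℵ₀)).trans (hle 0).le)
    · intro x hx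
      obtain ⟨n, hn⟩ := hlt x hx
      have h4 : 2 ^ x ≤ s (n + 1) := by
        rw [hs1]
        exact power_le_power_left two_ne_zero hn.le
      exact h4.trans_lt (hle (n + 1))
    · exact (le_max_left μ (succ ℵ₀)).trans_lt (hle 0)
  · intro S hS hne hlt
    have hbdd : BddAbove S := ⟨κ, fun χ h => (hS h).1.le⟩
    have hle : ∀ χ ∈ S, χ ≤ sSup S := fun χ h => le_csSup hbdd h
    refine ⟨hlt, ?_, ?_⟩
    · obtain ⟨χ, hχ⟩ := hne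
      exact (hS hχ).2.1.trans_le (hle χ hχ)
    · intro x hx
      obtain ⟨χ, hχ, hxχ⟩ := (lt_csSup_iff hbdd hne).1 hx
      exact ((hS hχ).2.2 x hxχ).trans_le (hle χ hχ)

/-- `κ` is inaccessible -/
theorem inaccessible_of_hyp (h₁ : AlmostSC κ)
    (h₂ : IsLeast {μ : Cardinal.{u} | ℵ₁ ≤ μ ∧ SC ℵ₁ μ} κ) : κ.IsInaccessible :=
  ⟨aleph0_lt_aleph_one.trans h₁.1, (regular_of_hyp h₁ h₂).2,
    fun _ hμ => two_power_lt_of_hyp h₁ h₂ hμ⟩

/-- the reflection theorem, with inaccessible points -/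
theorem reflection_inaccessible (h₁ : AlmostSC κ)
    (h₂ : IsLeast {μ : Cardinal.{u} | ℵ₁ ≤ μ ∧ SC ℵ₁ μ} κ) {δ : Cardinal.{u}} (hδ : ℵ₁ ≤ δ)
    (hδκ : δ < κ) {ι : Type u} (hι : #ι < δ) (T : ι → Set Ordinal.{u})
    (hT : ∀ i, Stat (T i) κ.ord) (hTc : ∀ i, ∀ α ∈ T i, ¬ Uni δ α.cof) :
    Stat {α | ∃ χ : Cardinal.{u}, χ.ord = α ∧ χ.IsInaccessible ∧ ¬ Uni δ χ ∧
      ∀ i, Stat (T i) α} κ.ord := by
  have hC := club_strongLimit (regular_of_hyp h₁ h₂) (aleph0_lt_aleph_one.trans h₁.1)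
    (fun _ hμ => two_power_lt_of_hyp h₁ h₂ hμ)
  refine (reflection h₁ h₂ hδ hδκ hC (fun χ h => h.2.1) hι T hT hTc).mono ?_
  rintro α ⟨χ, h3, h4, h5, h6, h7⟩
  exact ⟨χ, h4, ⟨h3.2.1, h5.2, fun μ hμ => h3.2.2 μ hμ⟩, h6, h7⟩

/-- `κ` is `κ`-Mahlo -/
theorem mahlo_self (h₁ : AlmostSC κ)
    (h₂ : IsLeast {μ : Cardinal.{u} | ℵ₁ ≤ μ ∧ SC ℵ₁ μ} κ) : Mahlo κ.ord κ :=
  mahlo_of_hyp h₁ h₂ (inaccessible_of_hyp h₁ h₂)
    (club_strongLimit (regular_of_hyp h₁ h₂) (aleph0_lt_aleph_one.trans h₁.1)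
      (fun _ hμ => two_power_lt_of_hyp h₁ h₂ hμ)) (fun _ h => h.2.1) (fun _ h => h.2.2) _ le_rfl

end Pool.Agent.H9.ASC
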