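import Pool.Agent.H85.ASC.Final

/-!
# Stationary sets, and their reflection for a weakly normal ultrafilter

`Stat T α`: the set of ordinals `T` is stationary in `α` (Mathlib's `IsStationary` in the order
`Iio α`).  `reflect`: if `D` is a `δ`-complete uniform weakly normal ultrafilter on the regular
cardinal `κ`, and `T` is a stationary set of points whose cofinality carries no `δ`-complete uniform
ultrafilter, then `T` is stationary below `D`-almost every point.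
-/

open Cardinal Ordinal Filter Set Order

universe u v w

namespace Pool.Agent.H9.ASC

open Pool.Agent.H85.ASC

theorem isClub_symm {α : Type v} {β : Type w} [LinearOrder α] [LinearOrder β] (e : α ≃o β)
    {s : Set α} (hs : IsClub s) : IsClub (e.symm ⁻¹' s) := by
  refine ⟨?_, ?_⟩
  · intro t ht hne _ x hx
    show e.symm x ∈ s
    refine hs.isLUB_mem (t := e.symm '' t) ?_ (hne.image _) ?_
    · rintro _ ⟨y, hy, rfl⟩
      exact ht hy
    · exact e.symm.isLUB_image'.2 hx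
  · intro b
    obtain ⟨y, hy, hby⟩ := hs.isCofinal (e.symm b)
    refine ⟨e y, ?_, ?_⟩
    · show e.symm (e y) ∈ s
      rw [e.symm_apply_apply]
      exact hy
    · exact (e.symm_apply_le).1 hby

theorem isStationary_of_iso {α : Type v} {β : Type w} [LinearOrder α] [LinearOrder β] (e : α ≃o β)
    {s : Set β} (hs : IsStationary (e ⁻¹' s)) : IsStationary s := by
  intro t ht
  obtain ⟨x, hx, hx'⟩ := hs (isClub_symm e.symm ht)
  exact ⟨e x, hx, hx'⟩

/-- the set of ordinals `T` is stationary in `α` -/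
def Stat (T : Set Ordinal.{u}) (α : Ordinal.{u}) : Prop :=
  IsStationary ((fun x : Iio α => (x : Ordinal.{u})) ⁻¹' T)

theorem Stat.mono {T T' : Set Ordinal.{u}} {α : Ordinal.{u}} (h : Stat T α) (h' : T ⊆ T') :
    Stat T' α :=
  IsStationary.mono h fun _ hx => h' hx

variable {κ δ : Cardinal.{u}}

/-- the ordinal of a point -/
noncomputable def pt (a : κ.ord.ToType) : Ordinal.{u} := (ToType.toOrd a : Ordinal.{u})

theorem pt_lt (a : κ.ord.ToType) : pt a < κ.ord := (ToType.toOrd a).2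

theorem pt_lt_pt {a b : κ.ord.ToType} : pt a < pt b ↔ a < b := by
  unfold pt
  rw [Subtype.coe_lt_coe]
  exact ToType.mk.symm.lt_iff_lt

theorem pt_mk (x : Iio κ.ord) : pt (ToType.mk x) = x.1 := by
  unfold pt
  show ((ToType.mk.symm (ToType.mk x) : Iio κ.ord) : Ordinal.{u}) = _
  rw [OrderIso.symm_apply_apply]

theorem stat_iff (T : Set Ordinal.{u}) :
    Stat T κ.ord ↔ IsStationary {x : κ.ord.ToType | pt x ∈ T} := by
  constructor
  · intro h
    refine isStationary_of_iso (ToType.mk (o := κ.ord)) ?_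
    have he : (ToType.mk (o := κ.ord)) ⁻¹' {x : κ.ord.ToType | pt x ∈ T} =
        (fun x : Iio κ.ord => (x : Ordinal.{u})) ⁻¹' T := by
      ext x
      show pt (ToType.mk x) ∈ T ↔ x.1 ∈ T
      rw [pt_mk]
    rw [he]
    exact h
  · intro h
    refine isStationary_of_iso (ToType.mk (o := κ.ord)).symm ?_
    exact h

/-- the points below `a` -/
noncomputable def isoIio (a : κ.ord.ToType) : Iio a ≃o Iio (pt a) where
  toFun x := ⟨pt x.1, pt_lt_pt.2 x.2⟩
  invFun y := ⟨ToType.mk ⟨y.1, lt_trans (mem_Iio.1 y.2) (pt_lt a)⟩, by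
    rw [mem_Iio, ← pt_lt_pt, pt_mk]
    exact y.2⟩
  left_inv x := by
    apply Subtype.ext
    show ToType.mk (⟨pt x.1, _⟩ : Iio κ.ord) = x.1
    exact ToType.mk.apply_symm_apply x.1
  right_inv y := by
    apply Subtype.ext
    show pt (ToType.mk _) = y.1
    rw [pt_mk]
  map_rel_iff' := by
    intro x y
    show (pt x.1 ≤ pt y.1) ↔ x ≤ y
    rw [← not_lt, pt_lt_pt, not_lt]
    exact Iff.rfl

theorem stat_pt_iff (T : Set Ordinal.{u}) (a : κ.ord.ToType) :
    Stat T (pt a) ↔ IsStationary ((fun x : Iio a => x.1) ⁻¹' {x : κ.ord.ToType | pt x ∈ T}) := by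
  constructor
  · intro h
    refine isStationary_of_iso (isoIio a).symm ?_
    have he : (isoIio a).symm ⁻¹' ((fun x : Iio a => x.1) ⁻¹' {x : κ.ord.ToType | pt x ∈ T}) =
        (fun x : Iio (pt a) => (x : Ordinal.{u})) ⁻¹' T := by
      ext y
      show pt (ToType.mk _) ∈ T ↔ y.1 ∈ T
      rw [pt_mk]
    rw [he]
    exact h
  · intro h
    refine isStationary_of_iso (isoIio a) ?_
    exact h

theorem cof_pt (a : κ.ord.ToType) : Order.cof (Iio a) = (pt a).cof := by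
  rw [Order.cof_Iio]
  rfl

/-- the closure points of a function form a club -/
theorem closure_club (hr : κ.IsRegular) (h0 : ℵ₀ < κ) (h : κ.ord.ToType → κ.ord.ToType) :
    IsClub {x : κ.ord.ToType | (∃ y, y < x) ∧ ∀ b < x, h b < x} := by
  refine ⟨?_, ?_⟩
  · intro t ht hne _ x hx
    refine ⟨?_, ?_⟩
    · obtain ⟨z, hz⟩ := hne
      obtain ⟨y, hy⟩ := (ht hz).1
      exact ⟨y, hy.trans_le (hx.1 hz)⟩
    · intro b hb
      obtain ⟨z, hz, hbz⟩ := (lt_isLUB_iff hx).1 hb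
      exact ((ht hz).2 b hbz).trans_le (hx.1 hz)
  · intro x0
    have hno := Cardinal.noMaxOrder hr.1
    have hg : ∀ x : κ.ord.ToType, ∃ y, x < y ∧ ∀ b ≤ x, h b < y := by
      intro x
      obtain ⟨y, hy⟩ := exists_bound_fun (fun b : Iic x => h b.1)
        (by rw [hr.cof_ord]; exact mk_Iic_lt hr.1 x)
      obtain ⟨z, hz⟩ := exists_gt (max x y)
      exact ⟨z, (le_max_left _ _).trans_lt hz, fun b hb =>
        (hy ⟨b, hb⟩).trans ((le_max_right _ _).trans_lt hz)⟩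
    choose g hg1 hg2 using hg
    let s : ℕ → κ.ord.ToType := fun n => g^[n] x0
    have hs1 : ∀ n, s (n + 1) = g (s n) := fun n => Function.iterate_succ_apply' g n x0
    obtain ⟨b0, hb0⟩ := exists_bound (range s) (by
      rw [hr.cof_ord]
      exact lt_of_le_of_lt (by simpa using mk_range_le_lift (f := s)) h0)
    have hne : {b : κ.ord.ToType | ∀ n, s n ≤ b}.Nonempty := ⟨b0, fun n => (hb0 _ ⟨n, rfl⟩).le⟩
    obtain ⟨y, hy, hmin⟩ := WellFounded.has_min (wellFounded_lt (α := κ.ord.ToType)) _ hne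
    have hlt : ∀ b < y, ∃ n, b < s n := by
      intro b hb
      by_contra hc
      push Not at hc
      exact hmin b hc hb
    refine ⟨y, ⟨⟨x0, ?_⟩, ?_⟩, hy 0⟩
    · have h1 := hy 1
      rw [hs1 0] at h1
      exact (hg1 _).trans_le h1
    · intro b hb
      obtain ⟨n, hn⟩ := hlt b hb
      have h1 := hy (n + 1)
      rw [hs1 n] at h1
      exact (hg2 (s n) b hn.le).trans_le h1

/-- an unbounded function into the points below `x` -/
theorem uni_of_unbdd {I : Type u} {W : Ultrafilter I} (hW : Cp W δ) {x : κ.ord.ToType}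
    {f : I → κ.ord.ToType} (hf : ∀ᶠ i in (W : Filter I), f i < x)
    (hub : ∀ b < x, ∀ᶠ i in (W : Filter I), b < f i) : Uni δ (Order.cof (Iio x)) := by
  classical
  obtain ⟨i0, hi0⟩ := hf.exists
  have hno : NoMaxOrder (Iio x) := ⟨fun b => by
    obtain ⟨i, hi, hi'⟩ := ((hub b.1 b.2).and hf).exists
    exact ⟨⟨f i, hi'⟩, hi⟩⟩
  have hne : Nonempty (Iio x) := ⟨⟨f i0, hi0⟩⟩
  have hc0 : ℵ₀ ≤ Order.cof (Iio x) := Order.aleph0_le_cof
  obtain ⟨S, hS, hcS⟩ := Order.exists_cof_eq (Iio x)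
  have hcard : #S = #((Order.cof (Iio x)).ord.ToType) := by simp [hcS]
  obtain ⟨e⟩ := Cardinal.eq.1 hcard
  have hg : ∀ i, ∃ j : (Order.cof (Iio x)).ord.ToType, ∀ h : f i < x,
      (⟨f i, h⟩ : Iio x) ≤ (e.symm j).1 := by
    intro i
    by_cases h : f i < x
    · obtain ⟨s, hs, hle⟩ := hS ⟨f i, h⟩
      refine ⟨e ⟨s, hs⟩, fun _ => ?_⟩
      rw [Equiv.symm_apply_apply]
      exact hle
    · obtain ⟨s, hs, -⟩ := hS ⟨f i0, hi0⟩
      exact ⟨e ⟨s, hs⟩, fun h' => absurd h' h⟩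
  choose g hg using hg
  refine ⟨W.map g, hW.map g, fun j => ?_⟩
  show g ⁻¹' (Ioi j) ∈ W
  have hnot : ¬ IsCofinal ((fun i => (e.symm i).1) '' Iic j) := by
    intro hcof
    have h1 := Order.cof_le hcof
    exact absurd h1 (not_le.2 (mk_image_le.trans_lt (mk_Iic_lt hc0 j)))
  rw [IsCofinal] at hnot
  push Not at hnot
  obtain ⟨b, hb⟩ := hnot
  filter_upwards [hf, hub b.1 b.2] with i h1 h2
  rw [mem_preimage, mem_Ioi]
  by_contra h3
  have h4 := hb _ ⟨g i, not_lt.1 h3, rfl⟩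
  have h5 := hg i h1
  have h6 : (e.symm (g i)).1.1 < b.1 := h4
  have h7 : f i ≤ (e.symm (g i)).1.1 := h5
  exact absurd (h7.trans_lt h6) (not_lt.2 h2.le)

/-- a weakly normal ultrafilter contains the clubs -/
theorem club_mem' (hr : κ.IsRegular) {D : Ultrafilter κ.ord.ToType} (hD' : ∀ a, Ioi a ∈ D)
    (hwn : ∀ t : κ.ord.ToType → κ.ord.ToType, (∀ᶠ α in (D : Filter κ.ord.ToType), t α < α) →
        ∃ γ, ∀ᶠ α in (D : Filter κ.ord.ToType), t α ≤ γ)
    {E : Set κ.ord.ToType} (hE : IsClub E) : ∀ᶠ a in (D : Filter κ.ord.ToType), a ∈ E := by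
  by_contra hcon
  have hcon' : ∀ᶠ a in (D : Filter κ.ord.ToType), ¬ a ∈ E := Ultrafilter.eventually_not.2 hcon
  have hno := Cardinal.noMaxOrder hr.1
  have hne : Nonempty κ.ord.ToType := by
    rw [← mk_ne_zero_iff]
    simp only [mk_toType, card_ord]
    exact (aleph0_pos.trans_le hr.1).ne'
  obtain ⟨e0, he0, -⟩ := hE.isCofinal (Classical.arbitrary _)
  have ht : ∀ a, ∃ x : κ.ord.ToType, (¬ a ∈ E ∧ e0 < a) → x < a ∧ ∀ e ∈ E, e < a → e ≤ x := by
    intro a
    by_cases h : ¬ a ∈ E ∧ e0 < a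
    · have hn : {x : κ.ord.ToType | ∀ e ∈ E, e < a → e ≤ x}.Nonempty := ⟨a, fun e _ h => h.le⟩
      obtain ⟨x, hx, hmin⟩ := WellFounded.has_min (wellFounded_lt (α := κ.ord.ToType)) _ hn
      refine ⟨x, fun _ => ⟨?_, hx⟩⟩
      have hxa : x ≤ a := by
        by_contra hc
        exact hmin a (fun e _ h => h.le) (not_le.1 hc)
      refine lt_of_le_of_ne hxa ?_
      rintro rfl
      apply h.1
      refine hE.isLUB_mem (t := {e ∈ E | e < x}) (fun e he => he.1) ⟨e0, he0, h.2⟩ ⟨?_, ?_⟩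
      · exact fun e he => he.2.le
      · intro b hb
        by_contra hc
        exact hmin b (fun e he hex => hb ⟨he, hex⟩) (not_le.1 hc)
    · exact ⟨a, fun h' => absurd h' h⟩
  choose t ht using ht
  obtain ⟨γ, hγ⟩ := hwn t (by
    filter_upwards [hcon', hD' e0] with a h1 h2 using (ht a ⟨h1, h2⟩).1)
  obtain ⟨γ', hγ'⟩ := exists_gt γ
  obtain ⟨e, he, hγe⟩ := hE.isCofinal γ'
  have k1 : ∀ᶠ a in (D : Filter κ.ord.ToType), a ∈ Ioi e0 := hD' e0
  have k2 : ∀ᶠ a in (D : Filter κ.ord.ToType), a ∈ Ioi e := hD' e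
  obtain ⟨a, h1, h2, h3, h4⟩ := (hγ.and (hcon'.and (k1.and k2))).exists
  have h5 := (ht a ⟨h2, h3⟩).2 e he h4
  exact absurd (hγ'.trans_le (hγe.trans (h5.trans h1))) (lt_irrefl _)

/-- **Reflection.** -/
theorem reflect (hr : κ.IsRegular) (h0 : ℵ₀ < κ) {D : Ultrafilter κ.ord.ToType} (hDc : Cp D δ)
    (hD' : ∀ a, Ioi a ∈ D)
    (hwn : ∀ t : κ.ord.ToType → κ.ord.ToType, (∀ᶠ α in (D : Filter κ.ord.ToType), t α < α) →
        ∃ γ, ∀ᶠ α in (D : Filter κ.ord.ToType), t α ≤ γ)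
    {T : Set κ.ord.ToType} (hT : IsStationary T)
    (hTc : ∀ x ∈ T, ¬ Uni δ (Order.cof (Iio x))) :
    ∀ᶠ a in (D : Filter κ.ord.ToType), IsStationary ((fun x : Iio a => x.1) ⁻¹' T) := by
  by_contra hcon
  have hcon' : ∀ᶠ a in (D : Filter κ.ord.ToType), ¬ IsStationary ((fun x : Iio a => x.1) ⁻¹' T) :=
    Ultrafilter.eventually_not.2 hcon
  have hE : ∀ a : κ.ord.ToType, ∃ E : Set (Iio a), ¬ IsStationary ((fun x : Iio a => x.1) ⁻¹' T) →
      IsClub E ∧ Disjoint ((fun x : Iio a => x.1) ⁻¹' T) E := by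
    intro a
    by_cases h : IsStationary ((fun x : Iio a => x.1) ⁻¹' T)
    · exact ⟨univ, fun h' => absurd h h'⟩
    · obtain ⟨E, hE⟩ := not_isStationary_iff.1 h
      exact ⟨E, fun _ => hE⟩
  choose E hE using hE
  have hno := Cardinal.noMaxOrder hr.1
  have hnx : ∀ b : κ.ord.ToType, ∃ c : κ.ord.ToType, ∀ᶠ a in (D : Filter κ.ord.ToType),
      ∃ e ∈ E a, b < e.1 ∧ e.1 ≤ c := by
    intro b
    obtain ⟨b', hb'⟩ := exists_gt b
    have ht : ∀ a : κ.ord.ToType, ∃ x : κ.ord.ToType,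
        (¬ IsStationary ((fun x : Iio a => x.1) ⁻¹' T) ∧ b' < a) →
          x < a ∧ ∃ e ∈ E a, b < e.1 ∧ e.1 = x := by
      intro a
      by_cases h : ¬ IsStationary ((fun x : Iio a => x.1) ⁻¹' T) ∧ b' < a
      · obtain ⟨e, he, hbe⟩ := (hE a h.1).1.isCofinal ⟨b', h.2⟩
        have h1 : b' ≤ e.1 := hbe
        exact ⟨e.1, fun _ => ⟨e.2, e, he, hb'.trans_le h1, rfl⟩⟩
      · exact ⟨a, fun h' => absurd h' h⟩
    choose t ht using ht
    obtain ⟨γ, hγ⟩ := hwn t (by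
      filter_upwards [hcon', hD' b'] with a h1 h2 using (ht a ⟨h1, h2⟩).1)
    refine ⟨γ, ?_⟩
    filter_upwards [hcon', hD' b', hγ] with a h1 h2 h3
    obtain ⟨-, e, he, h4, h5⟩ := ht a ⟨h1, h2⟩
    exact ⟨e, he, h4, h5.le.trans h3⟩
  choose h hh using hnx
  obtain ⟨x, hxT, ⟨y0, hy0⟩, hx⟩ := hT (closure_club hr h0 h)
  by_cases hP : ∀ᶠ a in (D : Filter κ.ord.ToType), ∀ b < x, ∃ e ∈ E a, b < e.1 ∧ e.1 < x
  · have k1 : ∀ᶠ a in (D : Filter κ.ord.ToType), a ∈ Ioi x := hD' x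
    obtain ⟨a, h1, h2, h3⟩ := (hP.and (hcon'.and k1)).exists
    have hxa : x < a := h3
    obtain ⟨h4, h5⟩ := hE a h2
    have h6 : (⟨x, hxa⟩ : Iio a) ∈ E a := by
      obtain ⟨e, he, -, hex⟩ := h1 y0 hy0
      refine h4.isLUB_mem (t := {e ∈ E a | e.1 < x}) (fun e he => he.1) ⟨e, he, hex⟩ ⟨?_, ?_⟩
      · intro e he
        exact he.2.le
      · intro b hb
        by_contra hc
        have hbx : b.1 < x := not_le.1 hc
        obtain ⟨e, he, h7, h8⟩ := h1 b.1 hbx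
        have h9 : e ≤ b := hb ⟨he, h8⟩
        exact absurd h7 (not_lt.2 h9)
    exact Set.disjoint_left.1 h5 (show (⟨x, hxa⟩ : Iio a) ∈ (fun x : Iio a => x.1) ⁻¹' T from hxT) h6
  · have hP' : ∀ᶠ a in (D : Filter κ.ord.ToType), ¬ ∀ b < x, ∃ e ∈ E a, b < e.1 ∧ e.1 < x :=
      Ultrafilter.eventually_not.2 hP
    have hf : ∀ a : κ.ord.ToType, ∃ b : κ.ord.ToType,
        (¬ ∀ b < x, ∃ e ∈ E a, b < e.1 ∧ e.1 < x) → b < x ∧ ∀ e ∈ E a, e.1 < x → e.1 ≤ b := by
      intro a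
      by_cases h1 : ∀ b < x, ∃ e ∈ E a, b < e.1 ∧ e.1 < x
      · exact ⟨x, fun h' => absurd h1 h'⟩
      · push Not at h1
        obtain ⟨b, hb, hb'⟩ := h1
        refine ⟨b, fun _ => ⟨hb, fun e he hex => ?_⟩⟩
        by_contra hc
        exact absurd hex (not_lt.2 (hb' e he (not_le.1 hc)))
    choose f hf using hf
    refine hTc x hxT (uni_of_unbdd hDc (f := f) ?_ ?_)
    · filter_upwards [hP'] with a ha using (hf a ha).1
    · intro b hb
      filter_upwards [hP', hh b] with a ha hb'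
      obtain ⟨e, he, h1, h2⟩ := hb'
      exact h1.trans_le ((hf a ha).2 e he (h2.trans_lt (hx b hb)))

end Pool.Agent.H9.ASC
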